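import Pool.Agent.N230.DC.RC

/-!
# Unirationality of double covers of degree at most four in all variables but one

`w² = f(x)`, `f` irreducible, of degree one or two in one variable, of degree at most four in all the other variables
but one, whose degree is arbitrary.
-/

set_option autoImplicit false

namespace Pool.Agent.N230.DC

open MvPolynomial Pool.Agent.R867.Mov Pool.Agent.R867.D

universe u w'

section

variable {k K : Type u} [Field k] [Field K] [Algebra k K] {ι : Type w'} [DecidableEq ι] {x : ι → K}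
  {f : MvPolynomial ι k} {w : K}

/-- The induction on the set of variables of degree at most four. -/
theorem out_of [CharZero k] [Finite ι] (hx : AlgebraicIndependent k x) (hf : Irreducible f)
    {r : ℕ} (hr : 1 ≤ r) (hw : w ^ r = aeval x f)
    (htop : IntermediateField.adjoin k (insert w (Set.range x)) = ⊤)
    {I₀ J₀ : Set ι} (hbase : ∀ a : K, Imm k a → a ∈ cl k (x '' I₀ᶜ))
    (hself : ∀ j, j ∈ J₀ → j ∉ I₀ → 1 ≤ degreeOf j f →
      ∃ T : K →ₐ[k] K, (∀ i, i ≠ j → T (x i) = x i) ∧ T (x j) ∉ cl k (x '' I₀ᶜ)) :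
    ∀ a : K, Imm k a → a ∈ cl k (x '' (I₀ ∪ J₀)ᶜ) := by
  have key : ∀ J : Set ι, J.Finite → (∀ j ∈ J, j ∈ J₀ ∧ j ∉ I₀) → ∀ a : K, Imm k a →
      a ∈ cl k (x '' (I₀ ∪ J)ᶜ) := by
    intro J hJ
    induction J, hJ using Set.Finite.induction_on with
    | empty =>
      intro _ a ha
      rw [Set.union_empty]
      exact hbase a ha
    | @insert j J hjJ hJ ih =>
      intro hI a ha
      have hjI : j ∉ I₀ := (hI j (Set.mem_insert _ _)).2
      have ih' := ih (fun i hi => hI i (Set.mem_insert_of_mem _ hi))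
      have hset : x '' (I₀ ∪ J)ᶜ = insert (x j) (x '' (I₀ ∪ insert j J)ᶜ) := by
        rw [← Set.image_insert_eq]
        congr 1
        ext i
        simp only [Set.mem_compl_iff, Set.mem_union, Set.mem_insert_iff, not_or]
        constructor
        · rintro ⟨h1, h2⟩
          by_cases h3 : i = j
          · exact Or.inl h3
          · exact Or.inr ⟨h1, h3, h2⟩
        · rintro (rfl | ⟨h1, -, h2⟩)
          · exact ⟨hjI, hjJ⟩
          · exact ⟨h1, h2⟩
      have h1 := ih' a ha
      rw [hset] at h1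
      rcases Nat.eq_zero_or_pos (degreeOf j f) with h0 | hpos
      · obtain ⟨σ, hσ1, hσ2⟩ := trans_move hx hf hr hw htop h0
        refine step_out σ (R := con 1 K) ?_ (subset_cl _ (ha 1 σ)) (fun h => hσ2 (mem_con_cl h)) h1
        rintro _ ⟨i, hi, rfl⟩
        refine subset_cl _ (hσ1 i ?_)
        rintro rfl
        exact hi (Or.inr (Set.mem_insert _ _))
      · obtain ⟨T, hT1, hT2⟩ := hself j (hI j (Set.mem_insert _ _)).1 hjI hpos
        refine step_out T (R := x '' I₀ᶜ) ?_ ?_ hT2 h1
        · rintro _ ⟨i, hi, rfl⟩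
          rw [hT1 i (by
            rintro rfl
            exact hi (Or.inr (Set.mem_insert _ _)))]
          refine subset_cl _ ⟨i, fun h => hi (Or.inl h), rfl⟩
        · exact hbase _ (ha.map T)
  intro a ha
  have h1 := key (J₀ \ I₀) (Set.toFinite _) (fun j hj => hj) a ha
  rwa [Set.union_diff_self] at h1

/-- Two elements which depend on one element are not independent. -/
theorem not_indep {y a b : K} (ha : a ∈ cl k {y}) (hb : b ∈ cl k {y}) : ¬ AlgebraicIndependent k ![a, b] := by
  intro h
  have h1 : a ∉ cl k (∅ : Set K) := by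
    have h2 := notMem_cl h (J := ∅) (j := 0) (Set.notMem_empty _)
    rwa [Set.image_empty] at h2
  have h2 : y ∈ cl k (insert a (∅ : Set K)) := cl_exch (S := ∅) (by
    rw [Set.insert_eq, Set.union_empty]
    exact ha) h1
  have h3 : b ∈ cl k ({a} : Set K) := by
    refine cl_sub ?_ hb
    rintro _ rfl
    rw [Set.insert_eq, Set.union_empty] at h2
    exact h2
  have h4 := notMem_cl h (J := {0}) (j := 1) (by simp)
  rw [Set.image_singleton] at h4
  exact h4 h3

end

variable {k K : Type u} [Field k] [Field K] [Algebra k K] {n : ℕ} {x : Fin n → K}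
  {f : MvPolynomial (Fin n) k} {w : K}

/-- **Double covers of degree at most four in all variables but one.** -/
theorem main [IsAlgClosed k] [CharZero k] (hf : Irreducible f) {i₀ i₁ : Fin n}
    (h1 : 1 ≤ degreeOf i₀ f) (h2 : degreeOf i₀ f ≤ 2) (h4 : ∀ j, j ≠ i₁ → degreeOf j f ≤ 4)
    (hx : AlgebraicIndependent k x) (hw : w ^ 2 = aeval x f)
    (htop : IntermediateField.adjoin k (insert w (Set.range x)) = ⊤) :
    ∃ m, Nonempty (K →ₐ[k] Rt m k) := by
  have hran : Set.range (Fin.cons w x : Fin (n + 1) → K) = insert w (Set.range x) := Fin.range_cons _ _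
  refine main_rc (x := (Fin.cons w x : Fin (n + 1) → K)) (by rw [hran, htop])
    (curvePts_of_rc (rc hf hx hw h1 h2)) fun a b ha hb => ?_
  obtain ⟨σ, hσ1, hσ2⟩ := conic_move hx hf hw htop h2
  have key := out_of hx hf (r := 2) (by norm_num) hw htop (I₀ := {i₀}) (J₀ := {j | j ≠ i₁})
    (base_out (r := 2) (by norm_num) hw htop σ hσ1 hσ2) (fun j hj1 hj hpos => by
      obtain ⟨T, hT1, hT2⟩ := self2 hx hf hw htop hpos (h4 j hj1)
      refine ⟨T, hT1, ?_⟩
      rw [hT2]
      exact notMem_cl_A hx hf (i₀ := i₀) hj (by simp) h1 (C2_dvd j f) (D2_dvd j f) (by norm_num)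
        (not_dvd_pderiv hpos))
  have hsub : cl k (x '' ({i₀} ∪ {j | j ≠ i₁})ᶜ) ⊆ cl k ({x i₁} : Set K) := by
    refine cl_mono ?_
    rintro _ ⟨i, hi, rfl⟩
    have h5 : i = i₁ := by
      by_contra h6
      exact hi (Or.inr h6)
    rw [h5]
    rfl
  exact not_indep (hsub (key a ha)) (hsub (key b hb))

end Pool.Agent.N230.DC
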