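import Pool.Agent.N230.DC.Main
import Pool.Agent.R867.D.Dens
import Pool.Agent.R867.H.Gp

/-!
# Potential density of double covers of degree at most four in all variables but one
-/

set_option autoImplicit false

namespace Pool.Agent.N230.DC

open MvPolynomial Pool.Agent.R867.Mov Pool.Agent.R867.D Pool.Agent.R867.H

universe u v

/-- The values of finitely many rational functions over an algebraic extension: points over a finite extension. -/
theorem pot_of_rt {k : Type u} [Field k] [CharZero k] {F : Type u} [Field F] [Algebra k F]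
    [Algebra.IsAlgebraic k F] {N m : ℕ} (z : Fin N → Rt m F) :
    ∃ L : IntermediateField k F, FiniteDimensional k L ∧ ∀ G : MvPolynomial (Fin N) F, aeval z G ≠ 0 →
      ∃ e : Fin N → L, (∀ Q : MvPolynomial (Fin N) F, aeval z Q = 0 → aeval (fun i => (e i : F)) Q = 0) ∧
        aeval (fun i => (e i : F)) G ≠ 0 := by
  classical
  have hcF : CharZero F := charZero_of_injective_algebraMap (algebraMap k F).injective
  obtain ⟨A, D, hD, hA⟩ := common_den z
  obtain ⟨T, hT⟩ : ∃ T : Finset F, T = D.support.image D.coeff ∪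
    Finset.univ.biUnion fun i => (A i).support.image (A i).coeff := ⟨_, rfl⟩
  obtain ⟨L, hL⟩ : ∃ L : IntermediateField k F, L = IntermediateField.adjoin k (T : Set F) := ⟨_, rfl⟩
  have hTL : ∀ c ∈ T, c ∈ L := fun c hc => by
    rw [hL]
    exact IntermediateField.subset_adjoin _ _ (Finset.mem_coe.2 hc)
  have hfin : FiniteDimensional k L := by
    rw [hL]
    have : Finite (T : Set F) := Finset.finite_toSet T
    exact IntermediateField.finiteDimensional_adjoin fun c _ => (Algebra.IsAlgebraic.isAlgebraic c).isIntegral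
  have hev : ∀ P : MvPolynomial (Fin m) F, (∀ d ∈ P.support, P.coeff d ∈ T) → ∀ a : Fin m → F,
      (∀ j, a j ∈ L) → eval a P ∈ L := by
    intro P hP a ha
    rw [MvPolynomial.eval_eq]
    exact sum_mem fun d hd => mul_mem (hTL _ (hP d hd)) (prod_mem fun j _ => pow_mem (ha j) _)
  have hDT : ∀ d ∈ D.support, D.coeff d ∈ T := fun d hd => by
    rw [hT]
    exact Finset.mem_union_left _ (Finset.mem_image_of_mem _ hd)
  have hAT : ∀ i, ∀ d ∈ (A i).support, (A i).coeff d ∈ T := fun i d hd => by
    rw [hT]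
    exact Finset.mem_union_right _ (Finset.mem_biUnion.2 ⟨i, Finset.mem_univ _, Finset.mem_image_of_mem _ hd⟩)
  refine ⟨L, hfin, fun G hG => ?_⟩
  obtain ⟨G', r, hG', hG''⟩ := clearR (k := F) hA G
  have hDr : algebraMap (MvPolynomial (Fin m) F) (Rt m F) D ≠ 0 := by
    rw [Ne, map_eq_zero_iff _ (rt_inj F m)]
    exact hD
  have hG'0 : G' ≠ 0 := by
    rintro rfl
    rw [map_zero] at hG'
    exact mul_ne_zero hG (pow_ne_zero _ hDr) hG'
  obtain ⟨t, htL, ht⟩ : ∃ t : Fin m → F, (∀ j, t j ∈ L) ∧ eval t (G' * D) ≠ 0 := by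
    by_contra hcon
    push Not at hcon
    refine mul_ne_zero hG'0 hD (MvPolynomial.funext_set (fun _ => Set.range (Nat.cast : ℕ → F))
      (fun _ => Set.infinite_range_of_injective Nat.cast_injective) fun a ha => ?_)
    rw [map_zero]
    refine hcon a fun j => ?_
    obtain ⟨c, hc⟩ := ha j (Set.mem_univ j)
    rw [← hc]
    exact natCast_mem _ c
  rw [map_mul] at ht
  have htD : eval t D ≠ 0 := right_ne_zero_of_mul ht
  have hmem : ∀ i, eval t (A i) / eval t D ∈ L := fun i =>
    div_mem (hev _ (hAT i) t htL) (hev _ hDT t htL)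
  have he : ∀ i, (eval t (A i) / eval t D) * eval t D = eval t (A i) := fun i => div_mul_cancel₀ _ htD
  refine ⟨fun i => ⟨_, hmem i⟩, fun Q hQ => ?_, fun h0 => ?_⟩
  · obtain ⟨Q', m', hQ', hQ''⟩ := clearR (k := F) hA Q
    rw [hQ, zero_mul] at hQ'
    have h1 : Q' = 0 := by
      apply rt_inj F m
      rw [map_zero]
      exact hQ'.symm
    have h2 := hQ'' t _ he
    rw [h1, map_zero] at h2
    exact (mul_eq_zero.mp h2).resolve_right (pow_ne_zero _ htD)
  · have h2 := hG'' t _ he
    rw [show aeval (fun i => eval t (A i) / eval t D) G = 0 from h0, zero_mul] at h2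
    exact left_ne_zero_of_mul ht h2.symm

theorem fse_rename {k : Type u} [Field k] {n : ℕ} (f : MvPolynomial (Fin n) k) :
    finSuccEquiv k n (rename Fin.succ f) = Polynomial.C f := by
  induction f using MvPolynomial.induction_on with
  | C a =>
    rw [rename_C]
    exact (finSuccEquiv k n).commutes a
  | add p q hp hq => rw [map_add, map_add, hp, hq, map_add]
  | mul_X p i hp => rw [map_mul, map_mul, hp, rename_X, finSuccEquiv_X_succ, map_mul]

/-- The function field of a double cover. -/
theorem exists_ff {k : Type u} [Field k] {n : ℕ} {f : MvPolynomial (Fin n) k} (hf : Irreducible f) :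
    ∃ (K : Type u) (_ : Field K) (_ : Algebra k K) (w : K) (x : Fin n → K), AlgebraicIndependent k x ∧
      w ^ 2 = aeval x f ∧ IntermediateField.adjoin k (insert w (Set.range x)) = ⊤ ∧
      ∀ G : MvPolynomial (Fin (n + 1)) k, aeval (Fin.cons w x : Fin (n + 1) → K) G = 0 →
        (X 0 ^ 2 - rename Fin.succ f) ∣ G := by
  have hirr : Irreducible (X 0 ^ 2 - rename Fin.succ f : MvPolynomial (Fin (n + 1)) k) := by
    have h1 := irr_cyc hf (r := 2) (by norm_num)
    rw [← MulEquiv.irreducible_iff (finSuccEquiv k n).toMulEquiv]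
    have h2 : (finSuccEquiv k n).toMulEquiv (X 0 ^ 2 - rename Fin.succ f) = Polynomial.X ^ 2 - Polynomial.C f := by
      change finSuccEquiv k n (X 0 ^ 2 - rename Fin.succ f) = _
      rw [map_sub, map_pow, finSuccEquiv_X_zero, fse_rename]
    rw [h2]
    exact h1
  obtain ⟨K, i1, i2, ξ, hξ⟩ := exists_gp hirr
  have hcons : (Fin.cons (ξ 0) (fun i => ξ i.succ) : Fin (n + 1) → K) = ξ := Fin.cons_self_tail ξ
  refine ⟨K, i1, i2, ξ 0, fun i => ξ i.succ, ?_, ?_, ?_, fun G hG => ?_⟩
  · have hdeg : degreeOf 0 (X 0 ^ 2 - rename Fin.succ f : MvPolynomial (Fin (n + 1)) k) ≠ 0 := by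
      rw [← natDegree_finSuccEquiv, map_sub, map_pow, finSuccEquiv_X_zero, fse_rename,
        Polynomial.natDegree_X_pow_sub_C]
      norm_num
    have h3 := indep_of hirr.ne_zero hdeg (fun P => (hξ.zero_iff P).mp)
    exact h3.comp (fun i : Fin n => ⟨i.succ, Fin.succ_ne_zero i⟩) fun a b hab => by
      simpa using hab
  · have h3 := (hξ.zero_iff _).2 (dvd_refl _)
    rw [map_sub, map_pow, aeval_X, aeval_rename, sub_eq_zero] at h3
    exact h3
  · rw [← Fin.range_cons, hcons, hξ.gen]
  · rw [hcons] at hG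
    exact (hξ.zero_iff _).1 hG

theorem degreeOf_map_inj {k F : Type u} [Field k] [Field F] [Algebra k F] {n : ℕ} (f : MvPolynomial (Fin n) k)
    (i : Fin n) : degreeOf i (map (algebraMap k F) f) = degreeOf i f := by
  classical
  rw [degreeOf_def, degreeOf_def, degrees_map_of_injective f (algebraMap k F).injective]

/-- **Potential density of double covers of degree at most four in all variables but one.** -/
theorem pot {k : Type u} [Field k] [CharZero k] {n : ℕ} {f : MvPolynomial (Fin n) k}
    (hf : Irreducible (map (algebraMap k (AlgebraicClosure k)) f)) {i₀ i₁ : Fin n}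
    (h1 : 1 ≤ degreeOf i₀ f) (h2 : degreeOf i₀ f ≤ 2) (h4 : ∀ j, j ≠ i₁ → degreeOf j f ≤ 4) :
    ∃ L : IntermediateField k (AlgebraicClosure k), FiniteDimensional k L ∧
      ∀ G : MvPolynomial (Fin (n + 1)) (AlgebraicClosure k),
        ¬ (X 0 ^ 2 - rename Fin.succ (map (algebraMap k (AlgebraicClosure k)) f)) ∣ G →
        ∃ (w : L) (x : Fin n → L), w ^ 2 = aeval x f ∧
          eval (Fin.cons (w : AlgebraicClosure k) fun i => (x i : AlgebraicClosure k)) G ≠ 0 := by
  have hc : CharZero (AlgebraicClosure k) :=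
    charZero_of_injective_algebraMap (algebraMap k (AlgebraicClosure k)).injective
  obtain ⟨K, i1, i2, w, x, hx, hw, htop, hG⟩ := exists_ff hf
  obtain ⟨m, ⟨σ⟩⟩ := main hf (i₀ := i₀) (i₁ := i₁) (by rwa [degreeOf_map_inj]) (by rwa [degreeOf_map_inj])
    (fun j hj => by
      rw [degreeOf_map_inj]
      exact h4 j hj) hx hw htop
  obtain ⟨L, hL, hpot⟩ := pot_of_rt (k := k) (fun i => σ ((Fin.cons w x : Fin (n + 1) → K) i))
  have hσ : ∀ Q : MvPolynomial (Fin (n + 1)) (AlgebraicClosure k),
      aeval (fun i => σ ((Fin.cons w x : Fin (n + 1) → K) i)) Q = σ (aeval (Fin.cons w x : Fin (n + 1) → K) Q) := by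
    intro Q
    exact (MvPolynomial.comp_aeval_apply (f := (Fin.cons w x : Fin (n + 1) → K)) σ Q).symm
  refine ⟨L, hL, fun G hGd => ?_⟩
  obtain ⟨e, he1, he2⟩ := hpot G (fun h0 => hGd (hG G (by
    rw [hσ, map_eq_zero] at h0
    exact h0)))
  refine ⟨e 0, fun i => e i.succ, ?_, ?_⟩
  · have h3 := he1 (X 0 ^ 2 - rename Fin.succ (map (algebraMap k (AlgebraicClosure k)) f)) (by
      rw [hσ, map_sub, map_pow, aeval_X, aeval_rename, Fin.cons_zero, hw]
      have h5 : (Fin.cons w x : Fin (n + 1) → K) ∘ Fin.succ = x := by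
        funext i
        rfl
      rw [h5, sub_self, map_zero])
    rw [map_sub, map_pow, aeval_X, aeval_rename, sub_eq_zero, aeval_map_algebraMap] at h3
    apply Subtype.ext
    change (e 0 : AlgebraicClosure k) ^ 2 = algebraMap L (AlgebraicClosure k) (aeval (fun i => e (Fin.succ i)) f)
    rw [h3, ← MvPolynomial.aeval_algebraMap_apply]
    rfl
  · have h3 : (Fin.cons (e 0 : AlgebraicClosure k) fun i => (e (Fin.succ i) : AlgebraicClosure k)) =
        fun i => (e i : AlgebraicClosure k) := by
      funext i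
      refine Fin.cases ?_ (fun j => ?_) i
      · rfl
      · rfl
    rw [h3]
    exact he2

end Pool.Agent.N230.DC
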