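import Pool.Agent.R867.D.MainRC
import Pool.Agent.R867.Mov.DC
import Pool.Agent.TH156.TsenC

/-!
# Double covers with a conic fibration are rationally connected

`w² = f(x)`, with `f` irreducible and of degree one or two in one variable: any two general points are on a rational
curve, by Tsen's theorem and weak approximation for conics over `k(s)` (`Pool.Agent.TH156.conic_poly`).
-/

set_option autoImplicit false

namespace Pool.Agent.N230.DC

open MvPolynomial Pool.Agent.R867.Mov Pool.Agent.R867.D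

universe u v

variable {k : Type u} [Field k] {n : ℕ} {f : MvPolynomial (Fin n) k}

theorem cons_ev2 {E : Type v} [Field E] [Algebra k E] (y : Fin n → E) (v : E)
    (Q : MvPolynomial (Fin (n + 1)) k) :
    aeval (Fin.cons v y : Fin (n + 1) → E) Q = ev2 y v (finSuccEquiv k n Q) := by
  have h : (aeval (Fin.cons v y : Fin (n + 1) → E) : MvPolynomial (Fin (n + 1)) k →ₐ[k] E) =
      (ev2 y v).comp (finSuccEquiv k n : MvPolynomial (Fin (n + 1)) k →ₐ[k]
        Polynomial (MvPolynomial (Fin n) k)) := by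
    apply MvPolynomial.algHom_ext
    intro i
    rw [aeval_X]
    refine Fin.cases ?_ (fun j => ?_) i
    · rw [Fin.cons_zero]
      change v = ev2 y v (finSuccEquiv k n (X 0))
      rw [finSuccEquiv_X_zero, ev2_X]
    · rw [Fin.cons_succ]
      change y j = ev2 y v (finSuccEquiv k n (X j.succ))
      rw [finSuccEquiv_X_succ, ev2_C, aeval_X]
  rw [h]
  rfl

theorem ker_imp {K : Type u} [Field K] [Algebra k K] {x : Fin n → K} {w : K} (hf : Irreducible f)
    (hx : AlgebraicIndependent k x) (hw : w ^ 2 = aeval x f) {Q : MvPolynomial (Fin (n + 1)) k}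
    (hQ : aeval (Fin.cons w x : Fin (n + 1) → K) Q = 0) {E : Type v} [Field E] [Algebra k E]
    (y : Fin n → E) (v : E) (hv : v ^ 2 = aeval y f) :
    aeval (Fin.cons v y : Fin (n + 1) → E) Q = 0 := by
  rw [cons_ev2] at hQ ⊢
  obtain ⟨P, hP⟩ := (ker_cyc hf (by norm_num) hx hw _).1 hQ
  rw [hP, map_mul, map_sub, map_pow, ev2_X, ev2_C, hv, sub_self, zero_mul]

/-- the line through two points -/
noncomputable def ln (p q : Fin n → k) (i : Fin n) : Polynomial k :=
  Polynomial.C (p i) * (1 - Polynomial.X) + Polynomial.C (q i) * Polynomial.X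

theorem ln_zero (p q : Fin n → k) (i : Fin n) : (ln p q i).eval 0 = p i := by
  unfold ln; simp

theorem ln_one (p q : Fin n → k) (i : Fin n) : (ln p q i).eval 1 = q i := by
  unfold ln; simp

theorem eval_aeval (ℓ : Fin n → Polynomial k) (s : k) (G : MvPolynomial (Fin n) k) :
    (aeval ℓ G).eval s = eval (fun i => (ℓ i).eval s) G := by
  induction G using MvPolynomial.induction_on with
  | C a =>
    rw [aeval_C, eval_C]
    exact Polynomial.eval_C
  | add p q hp hq => rw [map_add, Polynomial.eval_add, hp, hq, map_add]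
  | mul_X p i hp => rw [map_mul, Polynomial.eval_mul, hp, aeval_X, map_mul, eval_X]

theorem ln_eval_zero (p q : Fin n → k) (G : MvPolynomial (Fin n) k) :
    (aeval (ln p q) G).eval 0 = eval p G := by
  rw [eval_aeval]
  simp_rw [ln_zero]

theorem ln_eval_one (p q : Fin n → k) (G : MvPolynomial (Fin n) k) :
    (aeval (ln p q) G).eval 1 = eval q G := by
  rw [eval_aeval]
  simp_rw [ln_one]

theorem exists_pt [Infinite k] {G : MvPolynomial (Fin n) k} (hG : G ≠ 0) : ∃ p : Fin n → k, eval p G ≠ 0 := by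
  by_contra h
  push Not at h
  exact hG (MvPolynomial.funext fun p => by rw [h p, map_zero])

section

variable {K : Type u} [Field K] [Algebra k K] {x : Fin n → K} {w : K}

theorem pt_eq (hw : w ^ 2 = aeval x f) {p : Fin (n + 1) → k}
    (hp : IsPoint (Fin.cons w x : Fin (n + 1) → K) p) : p 0 ^ 2 = eval (fun i => p i.succ) f := by
  have h1 := hp (X 0 ^ 2 - rename Fin.succ f) (by
    rw [map_sub, map_pow, aeval_X, aeval_rename, Fin.cons_zero, hw]
    have h2 : (Fin.cons w x : Fin (n + 1) → K) ∘ Fin.succ = x := by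
      funext i
      rfl
    rw [h2, sub_self])
  rw [map_sub, map_pow, eval_X, eval_rename] at h1
  exact sub_eq_zero.1 h1

theorem pt_of (hf : Irreducible f) (hx : AlgebraicIndependent k x) (hw : w ^ 2 = aeval x f) {p : Fin n → k} {v : k}
    (hv : v ^ 2 = eval p f) : IsPoint (Fin.cons w x : Fin (n + 1) → K) (Fin.cons v p : Fin (n + 1) → k) := by
  intro Q hQ
  have h1 := ker_imp hf hx hw hQ p v (by rw [hv]; rfl)
  exact h1

/-- The general form: the second point on the fibre of the line is given by `h = c / b`, `w = v / b`. -/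
theorem joined_of (hf : Irreducible f) (hx : AlgebraicIndependent k x) (hw : w ^ 2 = aeval x f) {j : Fin n}
    {p q : Fin (n + 1) → k} (b c v : Polynomial k) (hb0 : b.eval 0 ≠ 0) (hb1 : b.eval 1 ≠ 0)
    (hc0 : c.eval 0 = 0) (hc1 : c.eval 1 = 0) (hv0 : v.eval 0 = p 0 * b.eval 0) (hv1 : v.eval 1 = q 0 * b.eval 1)
    (hd : degreeOf j f ≤ 2)
    (heq : v ^ 2 = aeval (ln (fun i => p i.succ) fun i => q i.succ) f * b ^ 2 +
      aeval (ln (fun i => p i.succ) fun i => q i.succ) (pderiv j f) * c * b +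
      aeval (ln (fun i => p i.succ) fun i => q i.succ) ((tay j f).coeff 2) * c ^ 2) :
    Joined (Fin.cons w x : Fin (n + 1) → K) p q := by
  obtain ⟨ℓ, hℓ⟩ : ∃ ℓ, ℓ = ln (fun i => p i.succ) fun i => q i.succ := ⟨_, rfl⟩
  rw [← hℓ] at heq
  have hl0 : ∀ i, (ℓ i).eval 0 = p i.succ := fun i => by rw [hℓ, ln_zero]
  have hl1 : ∀ i, (ℓ i).eval 1 = q i.succ := fun i => by rw [hℓ, ln_one]
  have hb : b ≠ 0 := by
    rintro rfl
    exact hb0 Polynomial.eval_zero
  let J := algebraMap (Polynomial k) (RatFunc k)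
  have hJb : J b ≠ 0 := by
    intro h0
    exact hb (RatFunc.algebraMap_injective k (h0.trans (map_zero _).symm))
  refine ⟨Fin.cons v (Function.update (fun i => ℓ i * b) j (ℓ j * b + c)), b, hb0, hb1, ?_, ?_, ?_⟩
  · intro i
    refine Fin.cases ?_ (fun i => ?_) i
    · rw [Fin.cons_zero, hv0]
    · rw [Fin.cons_succ]
      by_cases hi : i = j
      · rw [hi, Function.update_self, Polynomial.eval_add, Polynomial.eval_mul, hl0, hc0, add_zero]
      · rw [Function.update_of_ne hi, Polynomial.eval_mul, hl0]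
  · intro i
    refine Fin.cases ?_ (fun i => ?_) i
    · rw [Fin.cons_zero, hv1]
    · rw [Fin.cons_succ]
      by_cases hi : i = j
      · rw [hi, Function.update_self, Polynomial.eval_add, Polynomial.eval_mul, hl1, hc1, add_zero]
      · rw [Function.update_of_ne hi, Polynomial.eval_mul, hl1]
  · intro Q hQ
    obtain ⟨y, hy⟩ : ∃ y : Fin n → RatFunc k, ∀ i, y i = J (ℓ i) := ⟨_, fun _ => rfl⟩
    have hya : ∀ G : MvPolynomial (Fin n) k, aeval y G = J (aeval ℓ G) := by
      intro G
      have hy' : y = fun i => algebraMap (Polynomial k) (RatFunc k) (ℓ i) := funext hy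
      rw [hy']
      exact MvPolynomial.aeval_algebraMap_apply _ _ _
    have key := ker_imp hf hx hw hQ (Function.update y j (y j + J c / J b)) (J v / J b) (by
      rw [tay_sum y j _ f hd, Finset.sum_range_succ, Finset.sum_range_succ, Finset.sum_range_one, tay_zero,
        tay_one, hya, hya, hya]
      have h2 := congrArg J heq
      simp only [map_add, map_mul, map_pow] at h2
      field_simp
      linear_combination h2)
    rw [← key]
    congr 1
    congr 1
    funext i
    refine Fin.cases ?_ (fun i => ?_) i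
    · rw [Fin.cons_zero, Fin.cons_zero]
    · rw [Fin.cons_succ, Fin.cons_succ]
      by_cases hi : i = j
      · rw [hi, Function.update_self, Function.update_self, hy]
        change J (ℓ j * b + c) / J b = _
        rw [map_add, map_mul]
        field_simp
      · rw [Function.update_of_ne hi, Function.update_of_ne hi, hy]
        change J (ℓ i * b) / J b = _
        rw [map_mul]
        field_simp

theorem eval_H (G : MvPolynomial (Fin n) k) (p q : Fin (n + 1) → k) :
    eval (Sum.elim p q) (rename (fun i : Fin n => (Sum.inl i.succ : Fin (n + 1) ⊕ Fin (n + 1))) G *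
      rename (fun i : Fin n => (Sum.inr i.succ : Fin (n + 1) ⊕ Fin (n + 1))) G) =
      eval (fun i => p i.succ) G * eval (fun i => q i.succ) G := by
  rw [map_mul, eval_rename, eval_rename]
  rfl

/-- Double covers with a conic fibration are rationally connected. -/
theorem rc [IsAlgClosed k] [CharZero k] (hf : Irreducible f) (hx : AlgebraicIndependent k x)
    (hw : w ^ 2 = aeval x f) {j : Fin n} (h1 : 1 ≤ degreeOf j f) (h2 : degreeOf j f ≤ 2) :
    RationallyConnected k (Fin.cons w x : Fin (n + 1) → K) := by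
  obtain ⟨A, hA⟩ : ∃ A, A = (tay j f).coeff 2 := ⟨_, rfl⟩
  obtain ⟨B, hB⟩ : ∃ B, B = pderiv j f := ⟨_, rfl⟩
  have hB0 : B ≠ 0 := by
    rw [hB]
    exact pderiv_ne_zero h1
  have hfB : ¬ f ∣ B := by
    rw [hB]
    exact not_dvd_pderiv h1
  have main : ∀ G : MvPolynomial (Fin n) k, G ≠ 0 →
      (∀ p q : Fin (n + 1) → k, p 0 ^ 2 = eval (fun i => p i.succ) f → q 0 ^ 2 = eval (fun i => q i.succ) f →
        eval (fun i => p i.succ) G ≠ 0 → eval (fun i => q i.succ) G ≠ 0 →
        Joined (Fin.cons w x : Fin (n + 1) → K) p q) →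
      RationallyConnected k (Fin.cons w x : Fin (n + 1) → K) := by
    intro G hG hJ
    refine ⟨rename (fun i : Fin n => (Sum.inl i.succ : Fin (n + 1) ⊕ Fin (n + 1))) G *
        rename (fun i : Fin n => (Sum.inr i.succ : Fin (n + 1) ⊕ Fin (n + 1))) G, ?_, fun p q hp hq hpq => ?_⟩
    · obtain ⟨p, hp⟩ := exists_pt hG
      obtain ⟨v, hv⟩ := IsAlgClosed.exists_pow_nat_eq (eval p f) (n := 2) two_pos
      refine ⟨Fin.cons v p, Fin.cons v p, pt_of hf hx hw hv, pt_of hf hx hw hv, ?_⟩
      rw [eval_H]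
      exact mul_ne_zero hp hp
    · rw [eval_H] at hpq
      exact hJ p q (pt_eq hw hp) (pt_eq hw hq) (left_ne_zero_of_mul hpq) (right_ne_zero_of_mul hpq)
  by_cases hA0 : A = 0
  · -- the conics are lines
    refine main B hB0 fun p q hp hq hpB hqB => ?_
    obtain ⟨ℓ, hℓ⟩ : ∃ ℓ, ℓ = ln (fun i => p i.succ) fun i => q i.succ := ⟨_, rfl⟩
    obtain ⟨W, hW⟩ : ∃ W : Polynomial k, W = Polynomial.C (p 0) * (1 - Polynomial.X) +
      Polynomial.C (q 0) * Polynomial.X := ⟨_, rfl⟩
    have hW0 : W.eval 0 = p 0 := by rw [hW]; simp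
    have hW1 : W.eval 1 = q 0 := by rw [hW]; simp
    have hB0 : (aeval ℓ B).eval 0 = eval (fun i => p i.succ) B := by rw [hℓ, ln_eval_zero]
    have hB1 : (aeval ℓ B).eval 1 = eval (fun i => q i.succ) B := by rw [hℓ, ln_eval_one]
    have hF0 : (aeval ℓ f).eval 0 = p 0 ^ 2 := by rw [hℓ, ln_eval_zero, hp]
    have hF1 : (aeval ℓ f).eval 1 = q 0 ^ 2 := by rw [hℓ, ln_eval_one, hq]
    refine joined_of hf hx hw (j := j) (aeval ℓ B) (W ^ 2 - aeval ℓ f) (W * aeval ℓ B) ?_ ?_ ?_ ?_ ?_ ?_ h2 ?_
    · rw [hB0]; exact hpB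
    · rw [hB1]; exact hqB
    · rw [Polynomial.eval_sub, Polynomial.eval_pow, hW0, hF0, sub_self]
    · rw [Polynomial.eval_sub, Polynomial.eval_pow, hW1, hF1, sub_self]
    · rw [Polynomial.eval_mul, hW0]
    · rw [Polynomial.eval_mul, hW1]
    · rw [← hℓ, ← hA, ← hB, hA0, map_zero]
      ring
  · -- conics
    have hD0 : B ^ 2 - 4 * A * f ≠ 0 := by
      intro h0
      apply hfB
      refine hf.prime.dvd_of_dvd_pow (n := 2) ⟨4 * A, ?_⟩
      linear_combination h0
    refine main (A * (B ^ 2 - 4 * A * f)) (mul_ne_zero hA0 hD0) fun p q hp hq hpG hqG => ?_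
    obtain ⟨ℓ, hℓ⟩ : ∃ ℓ, ℓ = ln (fun i => p i.succ) fun i => q i.succ := ⟨_, rfl⟩
    have e0 : ∀ G, (aeval ℓ G).eval 0 = eval (fun i => p i.succ) G := fun G => by rw [hℓ, ln_eval_zero]
    have e1 : ∀ G, (aeval ℓ G).eval 1 = eval (fun i => q i.succ) G := fun G => by rw [hℓ, ln_eval_one]
    rw [map_mul] at hpG hqG
    have hpA := left_ne_zero_of_mul hpG
    have hpD := right_ne_zero_of_mul hpG
    have hqA := left_ne_zero_of_mul hqG
    have hqD := right_ne_zero_of_mul hqG
    have h4 : (4 : k) ≠ 0 := by norm_num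
    have h2' : (2 : k) ≠ 0 := by norm_num
    have c0 : (aeval ℓ (B ^ 2 - 4 * A * f)).eval 0 = (aeval ℓ B).eval 0 ^ 2 -
        4 * (aeval ℓ A).eval 0 * (aeval ℓ f).eval 0 := by
      rw [e0, e0, e0, e0]
      simp only [map_sub, map_mul, map_pow, map_ofNat]
    have c1 : (aeval ℓ (B ^ 2 - 4 * A * f)).eval 1 = (aeval ℓ B).eval 1 ^ 2 -
        4 * (aeval ℓ A).eval 1 * (aeval ℓ f).eval 1 := by
      rw [e1, e1, e1, e1]
      simp only [map_sub, map_mul, map_pow, map_ofNat]
    obtain ⟨Y, R, Z, hsol, hZ0, hZ1, hY0, hR0, hY1, hR1⟩ := Pool.Agent.TH156.conic_poly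
      (Polynomial.C 4 * aeval ℓ A) (aeval ℓ (B ^ 2 - 4 * A * f))
      (r₀ := p 0) (s₀ := (aeval ℓ B).eval 0) (r₁ := q 0) (s₁ := (aeval ℓ B).eval 1)
      (by rw [Polynomial.eval_mul, Polynomial.eval_C, e0]; exact mul_ne_zero h4 hpA)
      (by rw [Polynomial.eval_mul, Polynomial.eval_C, e1]; exact mul_ne_zero h4 hqA)
      (by rw [e0]; exact hpD) (by rw [e1]; exact hqD)
      (by
        rw [Polynomial.eval_mul, Polynomial.eval_C, c0, hp, ← e0]
        ring)
      (by
        rw [Polynomial.eval_mul, Polynomial.eval_C, c1, hq, ← e1]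
        ring)
    refine joined_of hf hx hw (j := j) (Polynomial.C 2 * aeval ℓ A * Z) (Y - aeval ℓ B * Z)
      (Polynomial.C 2 * aeval ℓ A * R) ?_ ?_ ?_ ?_ ?_ ?_ h2 ?_
    · rw [Polynomial.eval_mul, Polynomial.eval_mul, Polynomial.eval_C, e0]
      exact mul_ne_zero (mul_ne_zero h2' hpA) hZ0
    · rw [Polynomial.eval_mul, Polynomial.eval_mul, Polynomial.eval_C, e1]
      exact mul_ne_zero (mul_ne_zero h2' hqA) hZ1
    · rw [Polynomial.eval_sub, Polynomial.eval_mul, hY0]
      ring
    · rw [Polynomial.eval_sub, Polynomial.eval_mul, hY1]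
      ring
    · simp only [Polynomial.eval_mul, hR0]
      ring
    · simp only [Polynomial.eval_mul, hR1]
      ring
    · rw [← hℓ, ← hA, ← hB]
      have h5 : aeval ℓ (B ^ 2 - 4 * A * f) = aeval ℓ B ^ 2 - 4 * aeval ℓ A * aeval ℓ f := by
        simp only [map_sub, map_mul, map_pow, map_ofNat]
      rw [h5] at hsol
      have h6 : (Polynomial.C 4 : Polynomial k) = 4 := map_ofNat Polynomial.C 4
      have h7 : (Polynomial.C 2 : Polynomial k) = 2 := map_ofNat Polynomial.C 2
      rw [h6] at hsol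
      rw [h7]
      linear_combination (-(aeval ℓ A)) * hsol

end

end Pool.Agent.N230.DC
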