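import Pool.Agent.N230.DC.Pot

/-!
# Unirationality of double covers of degree at most four in all variables but one, in coordinates
-/

set_option autoImplicit false

namespace Pool.Agent.N230.DC

open MvPolynomial Pool.Agent.R867.Mov Pool.Agent.R867.D Pool.Agent.R867.H

universe u

/-- **Unirationality**, in coordinates. -/
theorem uni {k : Type u} [Field k] [IsAlgClosed k] [CharZero k] {n : ℕ} {f : MvPolynomial (Fin n) k}
    (hf : Irreducible f) {i₀ i₁ : Fin n} (h1 : 1 ≤ degreeOf i₀ f) (h2 : degreeOf i₀ f ≤ 2)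
    (h4 : ∀ j, j ≠ i₁ → degreeOf j f ≤ 4) :
    ∃ (m : ℕ) (W : Rt m k) (P : Fin n → Rt m k), ∀ G : MvPolynomial (Fin (n + 1)) k,
      aeval (Fin.cons W P : Fin (n + 1) → Rt m k) G = 0 ↔ (X 0 ^ 2 - rename Fin.succ f) ∣ G := by
  obtain ⟨K, i1, i2, w, x, hx, hw, htop, hG⟩ := exists_ff hf
  obtain ⟨m, ⟨σ⟩⟩ := main hf h1 h2 h4 hx hw htop
  have hcons : (Fin.cons (σ w) (fun i => σ (x i)) : Fin (n + 1) → Rt m k) =
      fun i => σ ((Fin.cons w x : Fin (n + 1) → K) i) := by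
    funext i
    refine Fin.cases ?_ (fun j => ?_) i
    · rfl
    · rfl
  have hσ : ∀ Q : MvPolynomial (Fin (n + 1)) k,
      aeval (fun i => σ ((Fin.cons w x : Fin (n + 1) → K) i)) Q = σ (aeval (Fin.cons w x : Fin (n + 1) → K) Q) := by
    intro Q
    exact (MvPolynomial.comp_aeval_apply (f := (Fin.cons w x : Fin (n + 1) → K)) σ Q).symm
  refine ⟨m, σ w, fun i => σ (x i), fun G => ?_⟩
  rw [hcons, hσ, map_eq_zero]
  refine ⟨hG G, ?_⟩
  rintro ⟨Q, rfl⟩
  rw [map_mul, map_sub, map_pow, aeval_X, aeval_rename, Fin.cons_zero, hw]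
  have h5 : (Fin.cons w x : Fin (n + 1) → K) ∘ Fin.succ = x := by
    funext i
    rfl
  rw [h5, sub_self, zero_mul]

end Pool.Agent.N230.DC
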